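import Pool.Agent.Helper38_LDP.Stmts

/-!
# LDP, module PRI
-/

namespace Pool.Agent.LDP.H15

open Polynomial
open scoped Polynomial.Bivariate

theorem dimV_eq (ρ a b : ℕ) (h : ρ * b ≤ a + 1) :
    2 * (dimV ρ a b : ℤ) = (b + 1) * (2 * (a + 1) - ρ * b) := by
  unfold dimV
  induction b with
  | zero => simp
  | succ b ih =>
    have h1 : ρ * b ≤ a + 1 := le_trans (Nat.mul_le_mul_left _ (Nat.le_succ b)) h
    rw [Finset.sum_range_succ]
    push_cast [Nat.cast_sub h] at ih ⊢
    have := ih h1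
    linarith

theorem hJ_add (hD : DimStmt) (ρ : ℕ) {K : Type} [Field K] (J : Ideal K[X][Y]) (t : ℕ) :
    hJ ρ J t + Module.finrank K (LinearMap.ker
      ((Ideal.Quotient.mkₐ K J).toLinearMap.domRestrict (V ρ K ((1 + ρ) * t) t))) =
      dimV ρ ((1 + ρ) * t) t := by
  haveI := (hD ρ ((1 + ρ) * t) t K).1
  have h1 := LinearMap.finrank_range_add_finrank_ker (K := K) (V := V ρ K ((1 + ρ) * t) t)
    (V₂ := K[X][Y] ⧸ J)
    ((Ideal.Quotient.mkₐ K J).toLinearMap.domRestrict (V ρ K ((1 + ρ) * t) t))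
  rw [LinearMap.range_domRestrict, (hD ρ ((1 + ρ) * t) t K).2] at h1
  exact h1

theorem hJ_span (hD : DimStmt) (hM : MulStmt) (ρ : ℕ) {K : Type} [Field K] (g : K[X][Y])
    (hg : g ≠ 0) (a b : ℕ) (hV : g ∈ V ρ K a b)
    (hE : ∀ (h : K[X][Y]) (A B : ℕ), h ≠ 0 → g * h ∈ V ρ K A B →
      a ≤ A ∧ b ≤ B ∧ h ∈ V ρ K (A - a) (B - b)) (t : ℕ) (h1 : a ≤ (1 + ρ) * t) (h2 : b ≤ t) :
    hJ ρ (Ideal.span {g}) t + dimV ρ ((1 + ρ) * t - a) (t - b) = dimV ρ ((1 + ρ) * t) t := by
  rw [← hJ_add hD ρ (Ideal.span {g}) t]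
  congr 1
  set A := (1 + ρ) * t
  have hmul : ∀ h : V ρ K (A - a) (t - b), g * h.1 ∈ V ρ K A t := by
    intro h
    have := hM ρ a b (A - a) (t - b) K g h.1 hV h.2
    rwa [Nat.add_sub_cancel' h1, Nat.add_sub_cancel' h2] at this
  let μ : V ρ K (A - a) (t - b) →ₗ[K] V ρ K A t :=
    { toFun := fun h => ⟨g * h.1, hmul h⟩
      map_add' := fun x y => by
        apply Subtype.ext
        show g * (x.1 + y.1) = g * x.1 + g * y.1
        ring
      map_smul' := fun c x => by
        apply Subtype.ext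
        show g * (c • x.1) = c • (g * x.1)
        rw [mul_smul_comm] }
  have hinj : Function.Injective μ := by
    intro x y hxy
    have : g * x.1 = g * y.1 := congrArg Subtype.val hxy
    exact Subtype.ext (mul_left_cancel₀ hg this)
  have hker : LinearMap.ker ((Ideal.Quotient.mkₐ K (Ideal.span {g})).toLinearMap.domRestrict
      (V ρ K A t)) = LinearMap.range μ := by
    ext x
    rw [LinearMap.mem_ker, LinearMap.mem_range]
    have e1 : (Ideal.Quotient.mkₐ K (Ideal.span {g})).toLinearMap.domRestrict (V ρ K A t) x =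
        Ideal.Quotient.mk (Ideal.span {g}) x.1 := rfl
    rw [e1, Ideal.Quotient.eq_zero_iff_mem, Ideal.mem_span_singleton]
    constructor
    · rintro ⟨h, hh⟩
      by_cases h0 : h = 0
      · refine ⟨0, Subtype.ext ?_⟩
        rw [map_zero, hh, h0, mul_zero]
        rfl
      · obtain ⟨-, -, h3⟩ := hE h A t h0 (by rw [← hh]; exact x.2)
        exact ⟨⟨h, h3⟩, Subtype.ext hh.symm⟩
    · rintro ⟨h, hh⟩
      exact ⟨h.1, (congrArg Subtype.val hh).symm⟩
  rw [hker, LinearMap.finrank_range_of_inj hinj, (hD ρ _ _ K).2]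

/-- PRI -/
theorem pri (hD : DimStmt) (hM : MulStmt) (hE : ExaStmt) (hB : BezStmt) : PriStmt := by
  intro ρ k T c K _ J hρ hk hJp hJt
  -- `J ≠ ⊥`
  have hne : J ≠ ⊥ := by
    intro h0
    have h1 : ∀ t, hJ ρ J t = dimV ρ ((1 + ρ) * t) t := by
      intro t
      have h2 := hJ_add hD ρ J t
      have h3 : LinearMap.ker ((Ideal.Quotient.mkₐ K J).toLinearMap.domRestrict
          (V ρ K ((1 + ρ) * t) t)) = ⊥ := by
        rw [LinearMap.ker_eq_bot']
        intro x hx
        have hx' : Ideal.Quotient.mk J x.1 = 0 := hx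
        rw [Ideal.Quotient.eq_zero_iff_mem, h0, Ideal.mem_bot] at hx'
        exact Subtype.ext hx'
      rw [h3, finrank_bot, add_zero] at h2
      exact h2
    set t := T + k + c.natAbs + 1 with ht
    have h2 := hJt t (by omega)
    rw [h1] at h2
    have h3 := dimV_eq ρ ((1 + ρ) * t) t (by nlinarith)
    rw [h2] at h3
    push_cast at h3
    have hc : c ≤ c.natAbs := Int.le_natAbs
    have ht' : (T : ℤ) + k + c.natAbs + 1 = t := by rw [ht]; push_cast; ring
    have hT0 : (0 : ℤ) ≤ T := by positivity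
    have hk0 : (0 : ℤ) ≤ k := by positivity
    have hc0 : (0 : ℤ) ≤ c.natAbs := by positivity
    have hρ0 : (0 : ℤ) ≤ ρ := by positivity
    have ht0 : (0 : ℤ) < t := by linarith
    nlinarith [mul_nonneg hρ0 (mul_nonneg ht0.le ht0.le), mul_nonneg hρ0 ht0.le,
      mul_nonneg ht0.le hc0, mul_nonneg ht0.le hT0]
  obtain ⟨x, hxJ, hx0⟩ := Submodule.exists_mem_ne_zero_of_ne_bot hne
  -- an irreducible element of `J`
  obtain ⟨g, hgJ, hgi⟩ : ∃ g ∈ J, Irreducible g := by
    obtain ⟨s, hs, hs2⟩ := UniqueFactorizationMonoid.exists_prime_factors x hx0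
    obtain ⟨u, hu⟩ := hs2
    have h1 : s.prod ∈ J := by
      have h2 : s.prod * (u : K[X][Y]) ∈ J := by rw [hu]; exact hxJ
      rcases hJp.mem_or_mem h2 with h3 | h3
      · exact h3
      · exact absurd (Ideal.eq_top_of_isUnit_mem _ h3 u.isUnit) hJp.ne_top
    obtain ⟨g, hg1, hg2⟩ := (hJp.multiset_prod_mem_iff_exists_mem s).1 h1
    exact ⟨g, hg2, (hs g hg1).irreducible⟩
  have hg0 : g ≠ 0 := hgi.ne_zero
  obtain ⟨a, b, hVg, hab, -, hEg⟩ := hE ρ K g hg0
  -- `J = (g)`
  have hJg : J = Ideal.span {g} := by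
    apply le_antisymm
    · intro h hh
      rw [Ideal.mem_span_singleton]
      by_contra hdvd
      have hh0 : h ≠ 0 := by
        intro h0
        exact hdvd (h0 ▸ dvd_zero g)
      obtain ⟨a', b', hVh, hab', -, -⟩ := hE ρ K h hh0
      obtain ⟨hfin, -⟩ := hB ρ a b a' b' K g h hρ hab hab' hVg hVh hgi hdvd
      have hle : Ideal.span {g, h} ≤ J := by
        rw [Ideal.span_le]
        intro z hz
        rcases hz with rfl | hz
        · exact hgJ
        · rw [Set.mem_singleton_iff] at hz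
          rw [hz]; exact hh
      haveI : Module.Finite K (K[X][Y] ⧸ J) := by
        refine Module.Finite.of_surjective
          (Ideal.Quotient.factorₐ K hle).toLinearMap ?_
        exact Ideal.Quotient.factor_surjective hle
      set D := Module.finrank K (K[X][Y] ⧸ J)
      have hbound : ∀ t, hJ ρ J t ≤ D := fun t => Submodule.finrank_le _
      set t := T + D + c.natAbs + 1 with ht
      have h2 := hJt t (by omega)
      have h3 := hbound t
      have hc : -(c.natAbs : ℤ) ≤ c := by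
        have := Int.natAbs_neg c ▸ Int.le_natAbs (a := -c)
        linarith
      have ht' : (T : ℤ) + D + c.natAbs + 1 = t := by rw [ht]; push_cast; ring
      have hT0 : (0 : ℤ) ≤ T := by positivity
      have hk0 : (1 : ℤ) ≤ k := by exact_mod_cast hk
      have h3' : (hJ ρ J t : ℤ) ≤ D := by exact_mod_cast h3
      have ht0 : (0 : ℤ) ≤ t := by positivity
      nlinarith
    · rw [Ideal.span_le, Set.singleton_subset_iff]
      exact hgJ
  refine ⟨a, b, g, hg0, ?_, hVg, hJg⟩
  -- the slope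
  have key : ∀ t : ℕ, T ≤ t → a ≤ t → b ≤ t →
      2 * ((k : ℤ) * t + c) + (t - b + 1) * (2 * ((1 + ρ) * t - a + 1) - ρ * (t - b)) =
        (t + 1) * (2 * ((1 + ρ) * t + 1) - ρ * t) := by
    intro t hT ha hb
    have ha' : a ≤ (1 + ρ) * t := by nlinarith
    have h1 := hJ_span hD hM ρ g hg0 a b hVg hEg t ha' hb
    rw [← hJg] at h1
    have h2 := dimV_eq ρ ((1 + ρ) * t) t (by nlinarith)
    have h3 := dimV_eq ρ ((1 + ρ) * t - a) (t - b) (by
      have e1 : ρ * (t - b) ≤ ρ * t := Nat.mul_le_mul_left _ (Nat.sub_le _ _)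
      have e2 : (1 + ρ) * t = t + ρ * t := by ring
      omega)
    have h4 : (hJ ρ J t : ℤ) + dimV ρ ((1 + ρ) * t - a) (t - b) = dimV ρ ((1 + ρ) * t) t := by
      exact_mod_cast h1
    rw [hJt t hT] at h4
    push_cast [Nat.cast_sub ha', Nat.cast_sub hb] at h2 h3
    linarith
  set t := T + a + b with ht
  have k1 := key t (by omega) (by omega) (by omega)
  have k2 := key (t + 1) (by omega) (by omega) (by omega)
  have hz : (a : ℤ) + b = k := by
    push_cast at k1 k2
    rcases (by omega : ρ = 0 ∨ ρ = 1) with h | h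
    · subst h
      push_cast at k1 k2
      linarith
    · subst h
      push_cast at k1 k2
      linarith
  exact_mod_cast hz

end Pool.Agent.LDP.H15
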